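import Pool.Agent.K7.H22.LW.Stm
import Pool.Agent.Y105.RZ.Fin

set_option autoImplicit false

/-!
# Project LW, job L: the lower bound `√p / 3` for the largest level set
-/

open Finset

namespace Pool.Agent.K7.H80.LW

open Pool.Agent.K7.H22.LW

variable {p : ℕ} [Fact p.Prime]

theorem rc (hp : p ≠ 2) : ringChar (ZMod p) ≠ 2 := by rwa [ZMod.ringChar_zmod_n]

theorem FF_add (hW : StW) (hp : p ≠ 2) (x : ZMod p) (s : ℕ) :
    FF p (x + (s : ℕ)) = FF p x + ∑ j ∈ range s, quadraticChar (ZMod p) (x - (-((j : ℕ) + 1 : ZMod p))) := by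
  induction s with
  | zero => simp
  | succ s ih =>
    have h1 : x + ((s + 1 : ℕ) : ZMod p) = x + (s : ℕ) + 1 := by push_cast; ring
    rw [h1, (hW p hp).1, ih, sum_range_succ, add_assoc]
    congr 2
    congr 1
    ring

theorem corr (hp : p ≠ 2) (j k : ℕ) (hj : j < p) (hk : k < p) :
    ∑ x : ZMod p, quadraticChar (ZMod p) (x - (-((j : ℕ) + 1 : ZMod p))) *
      quadraticChar (ZMod p) (x - (-((k : ℕ) + 1 : ZMod p))) = (if j = k then (p : ℤ) else 0) - 1 := by
  by_cases h : j = k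
  · subst h
    rw [if_pos rfl, ← Equiv.sum_comp (Equiv.addRight (-((j : ℕ) + 1 : ZMod p)))
      (fun x => quadraticChar (ZMod p) (x - (-((j : ℕ) + 1 : ZMod p))) *
      quadraticChar (ZMod p) (x - (-((j : ℕ) + 1 : ZMod p))))]
    simp only [Equiv.coe_addRight, add_sub_cancel_right]
    have h2 : ∀ x : ZMod p, quadraticChar (ZMod p) x * quadraticChar (ZMod p) x =
        1 - (if x = 0 then 1 else 0) := by
      intro x
      by_cases hx : x = 0
      · simp [hx]
      · rw [if_neg hx, ← map_mul, ← pow_two, quadraticChar_sq_one' hx]; ring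
    rw [sum_congr rfl (fun x _ => h2 x), sum_sub_distrib]
    simp [ZMod.card]
  · rw [if_neg h, Pool.Agent.Y105.RZ.jac2 (rc hp)]
    · ring
    · intro h3
      have h4 : ((j : ℕ) : ZMod p) = ((k : ℕ) : ZMod p) := by linear_combination -h3
      rw [ZMod.natCast_eq_natCast_iff', Nat.mod_eq_of_lt hj, Nat.mod_eq_of_lt hk] at h4
      exact h h4

theorem sq (hW : StW) (hp : p ≠ 2) (s : ℕ) (hs : s ≤ p) :
    ∑ x : ZMod p, (FF p (x + (s : ℕ)) - FF p x) ^ 2 = (s : ℤ) * (p - s) := by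
  have h1 : ∀ x : ZMod p, (FF p (x + (s : ℕ)) - FF p x) ^ 2 = ∑ j ∈ range s, ∑ k ∈ range s,
      quadraticChar (ZMod p) (x - (-((j : ℕ) + 1 : ZMod p))) *
      quadraticChar (ZMod p) (x - (-((k : ℕ) + 1 : ZMod p))) := by
    intro x
    rw [FF_add hW hp, add_sub_cancel_left, pow_two, sum_mul_sum]
  rw [sum_congr rfl (fun x _ => h1 x), sum_comm]
  have h2 : ∀ j ∈ range s, ∑ x : ZMod p, ∑ k ∈ range s,
      quadraticChar (ZMod p) (x - (-((j : ℕ) + 1 : ZMod p))) *
      quadraticChar (ZMod p) (x - (-((k : ℕ) + 1 : ZMod p))) = (p : ℤ) - s := by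
    intro j hj
    rw [sum_comm]
    have h3 : ∀ k ∈ range s, ∑ x : ZMod p,
      quadraticChar (ZMod p) (x - (-((j : ℕ) + 1 : ZMod p))) *
      quadraticChar (ZMod p) (x - (-((k : ℕ) + 1 : ZMod p))) = (if j = k then (p : ℤ) else 0) - 1 := by
      intro k hk
      exact corr hp j k (lt_of_lt_of_le (mem_range.1 hj) hs) (lt_of_lt_of_le (mem_range.1 hk) hs)
    rw [sum_congr rfl h3, sum_sub_distrib, sum_ite_eq, if_pos hj]
    simp
  rw [sum_congr rfl h2, sum_const, card_range, nsmul_eq_mul]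

theorem sum_range_zmod (g : ZMod p → ℤ) : ∑ s ∈ range p, g ((s : ℕ) : ZMod p) = ∑ z : ZMod p, g z := by
  refine Finset.sum_bij' (fun s _ => ((s : ℕ) : ZMod p)) (fun z _ => z.val) ?_ ?_ ?_ ?_ ?_
  · intro s _; exact mem_univ _
  · intro z _; exact mem_range.2 (ZMod.val_lt z)
  · intro s hs; exact ZMod.val_cast_of_lt (mem_range.1 hs)
  · intro z _; exact ZMod.natCast_zmod_val z
  · intro s _; rfl

theorem six (N : ℤ) (n : ℕ) : 6 * ∑ s ∈ range n, (s : ℤ) * (N - s) = 3 * N * n * (n - 1) - (n - 1) * n * (2 * n - 1) := by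
  induction n with
  | zero => simp
  | succ n ih =>
    rw [sum_range_succ, mul_add, ih]
    push_cast
    ring

theorem total (hW : StW) (hp : p ≠ 2) :
    6 * ∑ x : ZMod p, ∑ y : ZMod p, (FF p y - FF p x) ^ 2 = (p : ℤ) * (p ^ 2 - 1) := by
  have h1 : ∀ x : ZMod p, ∑ y : ZMod p, (FF p y - FF p x) ^ 2 =
      ∑ s ∈ range p, (FF p (x + (s : ℕ)) - FF p x) ^ 2 := by
    intro x
    rw [sum_range_zmod (fun z => (FF p (x + z) - FF p x) ^ 2),
      ← Equiv.sum_comp (Equiv.addLeft x) (fun y => (FF p y - FF p x) ^ 2)]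
    rfl
  rw [sum_congr rfl (fun x _ => h1 x), sum_comm,
    sum_congr rfl (fun s hs => sq hW hp s (le_of_lt (mem_range.1 hs))), six]
  ring

theorem l (hW : StW) : StL := by
  intro p _ hp
  by_contra hcon
  push Not at hcon
  have hp0 : (0 : ℝ) < p := by exact_mod_cast (Fact.out : p.Prime).pos
  set q : ℝ := Real.sqrt p with hq
  have hq0 : 0 < q := Real.sqrt_pos.2 hp0
  have hqq : q * q = p := Real.mul_self_sqrt hp0.le
  -- p > 9
  have h9 : 3 < q := by
    have h1 := hcon (FF p 0)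
    have h2 : 1 ≤ ((univ.filter fun x : ZMod p => FF p x = FF p 0).card : ℝ) := by
      have : 0 < (univ.filter fun x : ZMod p => FF p x = FF p 0).card :=
        card_pos.2 ⟨0, by simp⟩
      exact_mod_cast this
    linarith
  set R : ℕ := Nat.sqrt p with hR
  have hR1 : (R : ℝ) ≤ q := by
    rw [hq]; exact Real.nat_sqrt_le_real_sqrt
  have hR2 : q < R + 1 := by
    rw [hq]; exact Real.real_sqrt_lt_nat_sqrt_succ
  -- number of y near x
  have hN : ∀ x : ZMod p, ((univ.filter fun y : ZMod p => |FF p y - FF p x| ≤ R).card : ℝ) ≤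
      (2 * q + 1) * (q / 3) := by
    intro x
    have h1 : (univ.filter fun y : ZMod p => |FF p y - FF p x| ≤ R).card =
        ∑ h ∈ Icc (FF p x - R) (FF p x + R),
          ((univ.filter fun y : ZMod p => |FF p y - FF p x| ≤ R).filter fun y => FF p y = h).card := by
      refine card_eq_sum_card_fiberwise ?_
      intro y hy
      simp only [coe_filter, mem_univ, true_and, Set.mem_ofPred_eq] at hy
      rw [abs_le] at hy
      simp only [coe_Icc, Set.mem_Icc]
      constructor <;> linarith [hy.1, hy.2]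
    rw [h1]
    push_cast
    have h2 : ∀ h ∈ Icc (FF p x - R) (FF p x + R),
        ((((univ.filter fun y : ZMod p => |FF p y - FF p x| ≤ R).filter fun y => FF p y = h).card : ℕ) : ℝ) ≤
          q / 3 := by
      intro h _
      refine le_trans ?_ (hcon h).le
      have : ((univ.filter fun y : ZMod p => |FF p y - FF p x| ≤ R).filter fun y => FF p y = h).card ≤
          (univ.filter fun y : ZMod p => FF p y = h).card := by
        refine card_le_card ?_
        intro y hy
        simp only [mem_filter, mem_univ, true_and] at hy ⊢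
        exact hy.2
      exact_mod_cast this
    refine le_trans (sum_le_card_nsmul _ _ _ h2) ?_
    rw [Int.card_Icc, nsmul_eq_mul]
    have h3 : (FF p x + R + 1 - (FF p x - R)).toNat = 2 * R + 1 := by
      have : (FF p x + R + 1 - (FF p x - R)) = ((2 * R + 1 : ℕ) : ℤ) := by push_cast; ring
      rw [this]; exact Int.toNat_natCast _
    rw [h3]
    push_cast
    have : (0 : ℝ) ≤ q / 3 := by positivity
    nlinarith
  -- the sum over y
  have hS : ∀ x : ZMod p, ((p : ℝ) - (2 * q + 1) * (q / 3)) * p ≤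
      ((∑ y : ZMod p, (FF p y - FF p x) ^ 2 : ℤ) : ℝ) := by
    intro x
    have h1 : ((univ.filter fun y : ZMod p => ¬ |FF p y - FF p x| ≤ R).card : ℝ) =
        p - ((univ.filter fun y : ZMod p => |FF p y - FF p x| ≤ R).card : ℝ) := by
      have := card_filter_add_card_filter_not (s := (univ : Finset (ZMod p))) (fun y : ZMod p => |FF p y - FF p x| ≤ R)
      rw [card_univ, ZMod.card] at this
      have h2 : ((univ.filter fun y : ZMod p => |FF p y - FF p x| ≤ R).card : ℝ) +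
        ((univ.filter fun y : ZMod p => ¬ |FF p y - FF p x| ≤ R).card : ℝ) = p := by exact_mod_cast this
      linarith
    have h2 : ((univ.filter fun y : ZMod p => ¬ |FF p y - FF p x| ≤ R).card : ℤ) * ((R : ℤ) + 1) ^ 2 ≤
        ∑ y : ZMod p, (FF p y - FF p x) ^ 2 := by
      refine le_trans ?_ (sum_le_sum_of_subset_of_nonneg
        (filter_subset (fun y : ZMod p => ¬ |FF p y - FF p x| ≤ R) univ) (fun y _ _ => sq_nonneg _))
      rw [← nsmul_eq_mul]
      refine card_nsmul_le_sum _ _ _ ?_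
      intro y hy
      simp only [mem_filter, mem_univ, true_and, not_le] at hy
      have h3 : (R : ℤ) + 1 ≤ |FF p y - FF p x| := hy
      rw [← sq_abs (FF p y - FF p x)]
      have : (0 : ℤ) ≤ (R : ℤ) + 1 := by positivity
      nlinarith
    have h3 : ((univ.filter fun y : ZMod p => ¬ |FF p y - FF p x| ≤ R).card : ℝ) * ((R : ℝ) + 1) ^ 2 ≤
        ((∑ y : ZMod p, (FF p y - FF p x) ^ 2 : ℤ) : ℝ) := by exact_mod_cast h2
    refine le_trans ?_ h3
    rw [h1]
    have h4 := hN x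
    have h5 : (p : ℝ) ≤ ((R : ℝ) + 1) ^ 2 := by nlinarith
    have h6 : 0 ≤ (p : ℝ) - (2 * q + 1) * (q / 3) := by nlinarith
    calc ((p : ℝ) - (2 * q + 1) * (q / 3)) * p ≤ ((p : ℝ) - (2 * q + 1) * (q / 3)) * ((R : ℝ) + 1) ^ 2 :=
          mul_le_mul_of_nonneg_left h5 h6
      _ ≤ _ := mul_le_mul_of_nonneg_right (by linarith) (by positivity)
  have hT : ((6 * ∑ x : ZMod p, ∑ y : ZMod p, (FF p y - FF p x) ^ 2 : ℤ) : ℝ) = (p : ℝ) * ((p : ℝ) ^ 2 - 1) := by
    rw [total hW hp]; push_cast; ring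
  have hU : (p : ℝ) * (((p : ℝ) - (2 * q + 1) * (q / 3)) * p) ≤
      ((∑ x : ZMod p, ∑ y : ZMod p, (FF p y - FF p x) ^ 2 : ℤ) : ℝ) := by
    rw [Int.cast_sum]
    refine le_trans (le_of_eq ?_) (sum_le_sum (fun x _ => hS x))
    rw [sum_const, card_univ, ZMod.card, nsmul_eq_mul]
  rw [Int.cast_mul, Int.cast_ofNat] at hT
  have hV : 6 * ((p : ℝ) * (((p : ℝ) - (2 * q + 1) * (q / 3)) * p)) ≤ (p : ℝ) * ((p : ℝ) ^ 2 - 1) := by
    rw [← hT]; linarith
  have hW' : 6 * (((p : ℝ) - (2 * q + 1) * (q / 3)) * p) ≤ (p : ℝ) ^ 2 - 1 := by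
    have : (p : ℝ) * (6 * (((p : ℝ) - (2 * q + 1) * (q / 3)) * p)) ≤ (p : ℝ) * ((p : ℝ) ^ 2 - 1) := by
      linarith
    exact le_of_mul_le_mul_left this hp0
  -- 6 (p - (2 p + q)/3) p ≤ p^2 - 1
  have h7 : (2 * q + 1) * (q / 3) = (2 * p + q) / 3 := by rw [← hqq]; ring
  rw [h7] at hW'
  have h8 : (p : ℝ) > 3 * q := by nlinarith
  nlinarith

end Pool.Agent.K7.H80.LW
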